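import Pool.Agent.helper86.OF.SpecX

/-!
# BTM: the theorem on the model (assembly of part X)

MP_c62920_co.
-/

open scoped BigOperators

namespace Pool.Agent.OF

noncomputable section

open Classical

/-! ### Splitting degrees and numbers of edges -/

theorem BTM_dgs_split {V : Type} [Fintype V] (G : SimpleGraph V) (Z A : Finset V) (v : V) :
    dgs G Z v = dgs G (Z ∩ A) v + dgs G (Z \ A) v := by
  unfold dgs
  have h : Disjoint ((Z ∩ A).filter fun w => G.Adj v w) ((Z \ A).filter fun w => G.Adj v w) := by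
    rw [Finset.disjoint_left]
    intro a ha hb
    simp only [Finset.mem_filter, Finset.mem_inter, Finset.mem_sdiff] at ha hb
    exact hb.1.2 ha.1.2
  rw [← Finset.card_union_of_disjoint h]
  congr 1
  ext a
  simp only [Finset.mem_filter, Finset.mem_union, Finset.mem_inter, Finset.mem_sdiff]
  tauto

theorem BTM_ep_left {V : Type} [Fintype V] (G : SimpleGraph V) (S A T : Finset V) :
    ep G S T = ep G (S ∩ A) T + ep G (S \ A) T := by
  unfold ep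
  have h : Disjoint (S ∩ A) (S \ A) := by
    rw [Finset.disjoint_left]
    intro a ha hb
    simp only [Finset.mem_inter, Finset.mem_sdiff] at ha hb
    exact hb.2 ha.2
  rw [← Finset.sum_union h]
  apply Finset.sum_congr _ fun _ _ => rfl
  ext a
  simp only [Finset.mem_union, Finset.mem_inter, Finset.mem_sdiff]
  tauto

theorem BTM_ep_right {V : Type} [Fintype V] (G : SimpleGraph V) (S T A : Finset V) :
    ep G S T = ep G S (T ∩ A) + ep G S (T \ A) := by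
  unfold ep
  rw [← Finset.sum_add_distrib]
  exact Finset.sum_congr rfl fun v _ => BTM_dgs_split G T A v

theorem BTM_deg {V : Type} [Fintype V] (G : SimpleGraph V) (A : Finset V) (v : V) :
    dg (innerG G A) v + dg (crossG G A) v = dg G v := by
  unfold dg dgs
  have h : Disjoint ((Finset.univ : Finset V).filter fun w => (innerG G A).Adj v w)
      ((Finset.univ : Finset V).filter fun w => (crossG G A).Adj v w) := by
    rw [Finset.disjoint_left]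
    intro a ha hb
    simp only [Finset.mem_filter, Finset.mem_univ, true_and] at ha hb
    exact hb.2 ha.2
  rw [← Finset.card_union_of_disjoint h]
  congr 1
  ext a
  simp only [Finset.mem_filter, Finset.mem_union, Finset.mem_univ, true_and]
  constructor
  · rintro (h | h)
    · exact h.1
    · exact h.1
  · intro h
    by_cases hh : (v ∈ A ↔ a ∈ A)
    · exact Or.inl ⟨h, hh⟩
    · exact Or.inr ⟨h, hh⟩

theorem BTM_inner_A {V : Type} [Fintype V] (G : SimpleGraph V) (A : Finset V) (v : V)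
    (hv : v ∈ A) : dg (innerG G A) v = dgs G A v ∧ dg (crossG G A) v = dgs G Aᶜ v := by
  constructor
  · unfold dg dgs
    congr 1
    ext a
    simp only [Finset.mem_filter, Finset.mem_univ, true_and]
    constructor
    · intro h; exact ⟨h.2.1 hv, h.1⟩
    · intro h; exact ⟨h.2, ⟨fun _ => h.1, fun _ => hv⟩⟩
  · unfold dg dgs
    congr 1
    ext a
    simp only [Finset.mem_filter, Finset.mem_univ, true_and, Finset.mem_compl]
    constructor
    · intro h; exact ⟨fun ha => h.2 ⟨fun _ => ha, fun _ => hv⟩, h.1⟩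
    · intro h; exact ⟨h.2, fun hh => h.1 (hh.1 hv)⟩

theorem BTM_inner_B {V : Type} [Fintype V] (G : SimpleGraph V) (A : Finset V) (v : V)
    (hv : v ∉ A) : dg (innerG G A) v = dgs G Aᶜ v ∧ dg (crossG G A) v = dgs G A v := by
  constructor
  · unfold dg dgs
    congr 1
    ext a
    simp only [Finset.mem_filter, Finset.mem_univ, true_and, Finset.mem_compl]
    constructor
    · intro h; exact ⟨fun ha => hv (h.2.2 ha), h.1⟩
    · intro h; exact ⟨h.2, ⟨fun h' => absurd h' hv, fun h' => absurd h' h.1⟩⟩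
  · unfold dg dgs
    congr 1
    ext a
    simp only [Finset.mem_filter, Finset.mem_univ, true_and]
    constructor
    · intro h
      refine ⟨?_, h.1⟩
      by_contra ha
      exact h.2 ⟨fun h' => absurd h' hv, fun h' => absurd h' ha⟩
    · intro h; exact ⟨h.2, fun hh => hv (hh.2 h.1)⟩

theorem BTM_spl {V : Type} [Fintype V] (G : SimpleGraph V) (A X : Finset V) (v : V) (t : ℝ)
    (h1 : |(dgs G (X ∩ A) v : ℝ) - dgs G (X \ A) v| ≤ t)
    (h2 : |(dgs G (Xᶜ ∩ A) v : ℝ) - dgs G (Xᶜ \ A) v| ≤ t) :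
    |(dg (innerG G A) v : ℝ) - dg (crossG G A) v| ≤ 2 * t := by
  have e1 : dgs G A v = dgs G (X ∩ A) v + dgs G (Xᶜ ∩ A) v := by
    rw [BTM_dgs_split G A X v]
    congr 2
    · exact Finset.inter_comm _ _
    · ext a
      simp only [Finset.mem_sdiff, Finset.mem_inter, Finset.mem_compl]
      tauto
  have e2 : dgs G Aᶜ v = dgs G (X \ A) v + dgs G (Xᶜ \ A) v := by
    rw [BTM_dgs_split G Aᶜ X v]
    congr 2
    · ext a
      simp only [Finset.mem_sdiff, Finset.mem_inter, Finset.mem_compl]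
      tauto
    · ext a
      simp only [Finset.mem_sdiff, Finset.mem_compl]
      tauto
  have f1 : (dgs G A v : ℝ) = dgs G (X ∩ A) v + dgs G (Xᶜ ∩ A) v := by rw [e1]; push_cast; ring
  have f2 : (dgs G Aᶜ v : ℝ) = dgs G (X \ A) v + dgs G (Xᶜ \ A) v := by rw [e2]; push_cast; ring
  rw [abs_le] at h1 h2 ⊢
  by_cases hv : v ∈ A
  · obtain ⟨g1, g2⟩ := BTM_inner_A G A v hv
    rw [g1, g2, f1, f2]
    constructor <;> linarith [h1.1, h1.2, h2.1, h2.2]
  · obtain ⟨g1, g2⟩ := BTM_inner_B G A v hv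
    rw [g1, g2, f1, f2]
    constructor <;> linarith [h1.1, h1.2, h2.1, h2.2]

theorem BTM_card_split {V : Type} [Fintype V] (Z X : Finset V) :
    Z.card = (X ∩ Z).card + (Xᶜ ∩ Z).card := by
  have h : Disjoint (X ∩ Z) (Xᶜ ∩ Z) := by
    rw [Finset.disjoint_left]
    intro a ha hb
    simp only [Finset.mem_inter, Finset.mem_compl] at ha hb
    exact hb.1 ha.1
  rw [← Finset.card_union_of_disjoint h]
  congr 1
  ext a
  simp only [Finset.mem_union, Finset.mem_inter, Finset.mem_compl]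
  tauto

theorem BTM_sizes {V : Type} [Fintype V] (A X : Finset V)
    (h1 : |((X ∩ A).card : ℝ) - (X \ A).card| ≤ 1)
    (h2 : |((Xᶜ ∩ A).card : ℝ) - (Xᶜ \ A).card| ≤ 1) :
    (A.card : ℝ) ≤ (Fintype.card V : ℝ) / 2 + 1 ∧ (Aᶜ.card : ℝ) ≤ (Fintype.card V : ℝ) / 2 + 1 := by
  have e1 := BTM_card_split A X
  have e2 := BTM_card_split Aᶜ X
  have e3 : X ∩ Aᶜ = X \ A := by
    ext a; simp only [Finset.mem_sdiff, Finset.mem_inter, Finset.mem_compl]
  have e4 : Xᶜ ∩ Aᶜ = Xᶜ \ A := by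
    ext a; simp only [Finset.mem_sdiff, Finset.mem_inter, Finset.mem_compl]
  rw [e3, e4] at e2
  have e5 : A.card + Aᶜ.card = Fintype.card V := Finset.card_add_card_compl A
  have f1 : (A.card : ℝ) = (X ∩ A).card + (Xᶜ ∩ A).card := by exact_mod_cast e1
  have f2 : (Aᶜ.card : ℝ) = (X \ A).card + (Xᶜ \ A).card := by exact_mod_cast e2
  have f5 : (A.card : ℝ) + Aᶜ.card = Fintype.card V := by exact_mod_cast e5
  rw [abs_le] at h1 h2
  constructor <;> linarith [h1.1, h1.2, h2.1, h2.2]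

theorem BTM_ep_cross {V : Type} [Fintype V] (G : SimpleGraph V) (A S T : Finset V)
    (h : ∀ v ∈ S, ∀ w ∈ T, ¬ (v ∈ A ↔ w ∈ A)) : ep (crossG G A) S T = ep G S T := by
  unfold ep dgs
  apply Finset.sum_congr rfl
  intro v hv
  congr 1
  apply Finset.filter_congr
  intro w hw
  constructor
  · intro h'; exact h'.1
  · intro h'; exact ⟨h', h v hv w hw⟩

theorem BTM_four {V : Type} [Fintype V] (G : SimpleGraph V) (A X : Finset V) (n : ℝ)
    (h3 : |(ep G (X ∩ A) Xᶜ : ℝ) - ep G (X \ A) Xᶜ| ≤ n)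
    (h4 : |(ep G X (Xᶜ ∩ A) : ℝ) - ep G X (Xᶜ \ A)| ≤ n)
    (h5 : |(ep G (X ∩ A) (Xᶜ ∩ A) : ℝ) + ep G (X \ A) (Xᶜ \ A) - ep G (X ∩ A) (Xᶜ \ A) -
      ep G (X \ A) (Xᶜ ∩ A)| ≤ (ep G X Xᶜ : ℝ) / 5)
    (hU : 15 * n ≤ ep G X Xᶜ) :
    (ep G X Xᶜ : ℝ) / 6 ≤ ep (crossG G A) (X ∩ A) (Xᶜ \ A) ∧
    (ep G X Xᶜ : ℝ) / 6 ≤ ep (crossG G A) (X \ A) (Xᶜ ∩ A) ∧
    (ep G X Xᶜ : ℝ) ≤ 3 * ep (crossG G A) X Xᶜ := by
  have c1 : ep (crossG G A) (X ∩ A) (Xᶜ \ A) = ep G (X ∩ A) (Xᶜ \ A) := by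
    apply BTM_ep_cross
    intro v hv w hw h
    simp only [Finset.mem_sdiff, Finset.mem_inter] at hv hw
    exact hw.2 (h.1 hv.2)
  have c2 : ep (crossG G A) (X \ A) (Xᶜ ∩ A) = ep G (X \ A) (Xᶜ ∩ A) := by
    apply BTM_ep_cross
    intro v hv w hw h
    simp only [Finset.mem_sdiff, Finset.mem_inter] at hv hw
    exact hv.2 (h.2 hw.2)
  have t1 : ep G X Xᶜ = ep G (X ∩ A) Xᶜ + ep G (X \ A) Xᶜ := BTM_ep_left G X A Xᶜ
  have t2 : ep G (X ∩ A) Xᶜ = ep G (X ∩ A) (Xᶜ ∩ A) + ep G (X ∩ A) (Xᶜ \ A) :=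
    BTM_ep_right G _ _ _
  have t3 : ep G (X \ A) Xᶜ = ep G (X \ A) (Xᶜ ∩ A) + ep G (X \ A) (Xᶜ \ A) :=
    BTM_ep_right G _ _ _
  have t4 : ep G X (Xᶜ ∩ A) = ep G (X ∩ A) (Xᶜ ∩ A) + ep G (X \ A) (Xᶜ ∩ A) :=
    BTM_ep_left G _ _ _
  have t5 : ep G X (Xᶜ \ A) = ep G (X ∩ A) (Xᶜ \ A) + ep G (X \ A) (Xᶜ \ A) :=
    BTM_ep_left G _ _ _
  have s1 : ep (crossG G A) X Xᶜ = ep (crossG G A) (X ∩ A) Xᶜ + ep (crossG G A) (X \ A) Xᶜ :=
    BTM_ep_left _ X A Xᶜ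
  have s2 : ep (crossG G A) (X ∩ A) Xᶜ = ep (crossG G A) (X ∩ A) (Xᶜ ∩ A) +
      ep (crossG G A) (X ∩ A) (Xᶜ \ A) := BTM_ep_right _ _ _ _
  have s3 : ep (crossG G A) (X \ A) Xᶜ = ep (crossG G A) (X \ A) (Xᶜ ∩ A) +
      ep (crossG G A) (X \ A) (Xᶜ \ A) := BTM_ep_right _ _ _ _
  have s4 : ep (crossG G A) (X ∩ A) (Xᶜ \ A) + ep (crossG G A) (X \ A) (Xᶜ ∩ A) ≤
      ep (crossG G A) X Xᶜ := by omega
  rw [c1, c2] at s4 ⊢
  have s4' : (ep G (X ∩ A) (Xᶜ \ A) : ℝ) + ep G (X \ A) (Xᶜ ∩ A) ≤ ep (crossG G A) X Xᶜ := by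
    exact_mod_cast s4
  have t1' : (ep G X Xᶜ : ℝ) = ep G (X ∩ A) Xᶜ + ep G (X \ A) Xᶜ := by exact_mod_cast t1
  have t2' : (ep G (X ∩ A) Xᶜ : ℝ) = ep G (X ∩ A) (Xᶜ ∩ A) + ep G (X ∩ A) (Xᶜ \ A) := by
    exact_mod_cast t2
  have t3' : (ep G (X \ A) Xᶜ : ℝ) = ep G (X \ A) (Xᶜ ∩ A) + ep G (X \ A) (Xᶜ \ A) := by
    exact_mod_cast t3
  have t4' : (ep G X (Xᶜ ∩ A) : ℝ) = ep G (X ∩ A) (Xᶜ ∩ A) + ep G (X \ A) (Xᶜ ∩ A) := by
    exact_mod_cast t4
  have t5' : (ep G X (Xᶜ \ A) : ℝ) = ep G (X ∩ A) (Xᶜ \ A) + ep G (X \ A) (Xᶜ \ A) := by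
    exact_mod_cast t5
  rw [abs_le] at h3 h4 h5
  refine ⟨?_, ?_, ?_⟩
  · linarith [h3.1, h3.2, h4.1, h4.2, h5.1, h5.2]
  · linarith [h3.1, h3.2, h4.1, h4.2, h5.1, h5.2]
  · linarith [h3.1, h3.2, h4.1, h4.2, h5.1, h5.2]

/-! ### The degrees after disjoint matchings covering a vertex -/

theorem BTM_rem {V : Type} [Fintype V] (G : SimpleGraph V) (M : ℕ → V → V) (w : ℕ) (x : V)
    (hm : ∀ i < w, MatIn G (M i)) (hc : ∀ i < w, M i x ≠ x)
    (hd : ∀ i < w, ∀ j < w, i ≠ j → ∀ v, M i v ≠ v → M i v ≠ M j v) :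
    dg (remG G M (Finset.range w)) x + w = dg G x := by
  have h1 : ((Finset.range w).image fun i => M i x).card = w := by
    rw [Finset.card_image_of_injOn, Finset.card_range]
    intro i hi j hj hij
    by_contra hne
    have hi' : i < w := by simpa using hi
    have hj' : j < w := by simpa using hj
    exact hd i hi' j hj' hne x (hc i hi') hij
  have h2 : Disjoint (Finset.univ.filter fun v => (remG G M (Finset.range w)).Adj x v)
      ((Finset.range w).image fun i => M i x) := by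
    rw [Finset.disjoint_left]
    intro a ha hb
    simp only [Finset.mem_filter, Finset.mem_univ, true_and] at ha
    rw [Finset.mem_image] at hb
    obtain ⟨i, hi, hia⟩ := hb
    exact (ha.2 i hi).1 hia
  have h3 : (Finset.univ.filter fun v => (remG G M (Finset.range w)).Adj x v) ∪
      ((Finset.range w).image fun i => M i x) = Finset.univ.filter fun v => G.Adj x v := by
    ext a
    simp only [Finset.mem_union, Finset.mem_filter, Finset.mem_univ, true_and, Finset.mem_image,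
      Finset.mem_range]
    constructor
    · rintro (h | ⟨i, hi, hia⟩)
      · exact h.1
      · rw [← hia]
        exact (hm i hi).2 x (hc i hi)
    · intro h
      by_cases hh : ∃ i, i < w ∧ M i x = a
      · exact Or.inr hh
      · left
        refine ⟨h, ?_⟩
        intro i hi
        rw [Finset.mem_range] at hi
        refine ⟨fun h' => hh ⟨i, hi, h'⟩, fun h' => hh ⟨i, hi, ?_⟩⟩
        rw [← h', (hm i hi).1]
  unfold dg dgs
  rw [← h3, Finset.card_union_of_disjoint h2, h1]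

theorem BTM_dg_mono {V : Type} [Fintype V] (G H : SimpleGraph V) (v : V)
    (h : ∀ w, G.Adj v w → H.Adj v w) : dg G v ≤ dg H v := by
  unfold dg dgs
  apply Finset.card_le_card
  intro a ha
  simp only [Finset.mem_filter, Finset.mem_univ, true_and] at ha ⊢
  exact h a ha

theorem BTM_dgs_le {V : Type} [Fintype V] (G : SimpleGraph V) (S : Finset V) (v : V) :
    dgs G S v ≤ Fintype.card V := by
  unfold dgs
  exact Finset.card_le_univ _

theorem BTM_dg_le {V : Type} [Fintype V] (G : SimpleGraph V) (v : V) :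
    dg G v ≤ Fintype.card V := BTM_dgs_le G _ v

/-! ### The last step: what is left is bipartite -/

/-- If the matchings `M i`, `i < k`, of `G` and then `M' i`, `i < w`, of the rest are given and all
remaining edges are cross edges with degrees at most `D - k - w`, then `G` is `D`-colourable. -/
theorem BTM_last (hKON : KON_stmt) (hCUP : CUP_stmt) (hCOV : COV_stmt)
    {V : Type} [Fintype V] (G : SimpleGraph V) (A : Finset V) (D k w : ℕ)
    (M M' : ℕ → V → V) (hM : ∀ i < k, ∀ v, M i (M i v) = v)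
    (hM' : ∀ i < w, ∀ v, M' i (M' i v) = v) (hkw : k + w ≤ D)
    (hcr : ∀ v v', (remG (remG G M (Finset.range k)) M' (Finset.range w)).Adj v v' →
      ¬ (v ∈ A ↔ v' ∈ A))
    (hdg : ∀ v, dg (remG (remG G M (Finset.range k)) M' (Finset.range w)) v + (k + w) ≤ D) :
    EC G D := by
  have hstep : ∀ (H : SimpleGraph V) (L : ℕ → V → V) (a b : ℕ),
      (∀ i < a, ∀ v, L i (L i v) = v) → EC (remG H L (Finset.range a)) b → EC H (a + b) := by
    intro H L a b hL hb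
    refine hCUP V H (H \ remG H L (Finset.range a)) (remG H L (Finset.range a)) a b ?_ ?_ hb
    · intro v v' h
      by_cases hh : (remG H L (Finset.range a)).Adj v v'
      · exact Or.inr hh
      · left
        rw [SimpleGraph.sdiff_adj]
        exact ⟨h, hh⟩
    · apply hCOV V _ a L hL
      intro v v' h
      rw [SimpleGraph.sdiff_adj] at h
      by_contra hcon
      apply h.2
      refine ⟨h.1, ?_⟩
      intro i hi
      rw [Finset.mem_range] at hi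
      refine ⟨fun h' => hcon ⟨i, hi, h'⟩, fun h' => hcon ⟨i, hi, ?_⟩⟩
      rw [← h', hL i hi]
  have h1 : EC (remG (remG G M (Finset.range k)) M' (Finset.range w)) (D - (k + w)) := by
    apply hKON V _ A _ hcr
    intro v
    have := hdg v
    omega
  have h2 := hstep _ M' w _ hM' h1
  have h3 := hstep _ M k _ hM h2
  have h4 : k + (w + (D - (k + w))) = D := by omega
  rw [h4] at h3
  exact h3

/-! ### The first colouring -/

theorem BTM_first (hVIZ : VIZ_stmt) (hBAV : BAV_stmt)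
    {V : Type} [Fintype V] (G : SimpleGraph V) (A X : Finset V) (D k : ℕ) (η δ : ℝ)
    (hη : 0 ≤ η) (hηδ : 16 * η ≤ δ) (hn : 12 ≤ δ * Fintype.card V)
    (hD : (Fintype.card V : ℝ) / 2 ≤ D)
    (hN : (1 : ℝ) ≤ Fintype.card V)
    (hX : ∀ x ∈ X, dg G x = D) (hall : ∀ v, dg G v ≤ D)
    (hspl : ∀ v, |(dg (innerG G A) v : ℝ) - dg (crossG G A) v| ≤ 2 * (η * Fintype.card V))
    (hk1 : (k : ℝ) ≤ (D : ℝ) / 2 + η * Fintype.card V + 1)
    (hk2 : (D : ℝ) / 2 + η * Fintype.card V < k) :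
    ∃ c, PEC (innerG G A) k c ∧ (∀ i < k, (mis (innerG G A) c X i : ℝ) ≤ δ * Fintype.card V) ∧
      (∀ x ∈ X, (k : ℝ) ≤ dg (innerG G A) x + δ * Fintype.card V) := by
  have hdeg : ∀ v, (dg (innerG G A) v : ℝ) + dg (crossG G A) v = dg G v := by
    intro v
    exact_mod_cast BTM_deg G A v
  have hk0 : 1 ≤ k := by
    by_contra h
    have hk0 : k = 0 := by omega
    rw [hk0] at hk2
    have : (0 : ℝ) ≤ η * Fintype.card V := by positivity
    have : (0 : ℝ) ≤ (D : ℝ) := Nat.cast_nonneg D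
    push_cast at hk2
    linarith
  have hin : ∀ v, dg (innerG G A) v ≤ k - 1 := by
    intro v
    have h1 := abs_le.1 (hspl v)
    have h2 := hdeg v
    have h3 : (dg G v : ℝ) ≤ D := by exact_mod_cast hall v
    have h4 : (dg (innerG G A) v : ℝ) < k := by linarith [h1.2]
    have h5 : dg (innerG G A) v < k := by exact_mod_cast h4
    omega
  have hE : EC (innerG G A) k := by
    have := hVIZ V (innerG G A) (k - 1) hin
    rw [Nat.sub_add_cancel hk0] at this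
    exact this
  obtain ⟨c, hc, hmis⟩ := hBAV V (innerG G A) k X hE
  have hx : ∀ x ∈ X, (k : ℝ) ≤ dg (innerG G A) x + (2 * (η * Fintype.card V) + 1) := by
    intro x hx
    have h1 := abs_le.1 (hspl x)
    have h2 := hdeg x
    have h3 : (dg G x : ℝ) = D := by exact_mod_cast hX x hx
    linarith [h1.1]
  have hηN : (0 : ℝ) ≤ η * Fintype.card V := by positivity
  have hδη : 16 * (η * Fintype.card V) ≤ δ * Fintype.card V := by
    have := mul_le_mul_of_nonneg_right hηδ (by positivity : (0 : ℝ) ≤ (Fintype.card V : ℝ))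
    linarith
  refine ⟨c, hc, ?_, ?_⟩
  · intro i hi
    have h1 := hmis i hi
    have h2 : (k : ℝ) * mis (innerG G A) c X i ≤
        (∑ x ∈ X, (((k - dg (innerG G A) x : ℕ)) : ℝ)) + 2 * k := by
      exact_mod_cast h1
    have h3 : (∑ x ∈ X, (((k - dg (innerG G A) x : ℕ)) : ℝ)) ≤
        Fintype.card V * (2 * (η * Fintype.card V) + 1) := by
      calc (∑ x ∈ X, (((k - dg (innerG G A) x : ℕ)) : ℝ)) ≤
          ∑ x ∈ X, (2 * (η * Fintype.card V) + 1) := by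
            apply Finset.sum_le_sum
            intro x hxx
            rw [Nat.cast_sub (by have := hin x; omega)]
            have := hx x hxx
            linarith
        _ = X.card * (2 * (η * Fintype.card V) + 1) := by
            rw [Finset.sum_const, nsmul_eq_mul]
        _ ≤ Fintype.card V * (2 * (η * Fintype.card V) + 1) := by
            apply mul_le_mul_of_nonneg_right _ (by linarith)
            exact_mod_cast Finset.card_le_univ X
    have hk4 : (Fintype.card V : ℝ) / 4 ≤ k := by linarith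
    have hkpos : (0 : ℝ) < k := by linarith
    have h4 : (Fintype.card V : ℝ) * (2 * (η * Fintype.card V) + 1) ≤
        k * (4 * (2 * (η * Fintype.card V) + 1)) := by
      have : (Fintype.card V : ℝ) ≤ k * 4 := by linarith
      calc (Fintype.card V : ℝ) * (2 * (η * Fintype.card V) + 1) ≤
          (k * 4) * (2 * (η * Fintype.card V) + 1) :=
            mul_le_mul_of_nonneg_right this (by linarith)
        _ = k * (4 * (2 * (η * Fintype.card V) + 1)) := by ring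
    have h5 : (k : ℝ) * mis (innerG G A) c X i ≤ k * (4 * (2 * (η * Fintype.card V) + 1) + 2) := by
      calc (k : ℝ) * mis (innerG G A) c X i ≤ _ := h2
        _ ≤ k * (4 * (2 * (η * Fintype.card V) + 1)) + 2 * k := by linarith
        _ = k * (4 * (2 * (η * Fintype.card V) + 1) + 2) := by ring
    have h6 := le_of_mul_le_mul_left h5 hkpos
    linarith
  · intro x hxx
    have := hx x hxx
    linarith

/-! ### The second phase -/

theorem BTM_num1 (K θ1 θ2 n U s w r : ℝ) (hK : 0 < K) (hθ1 : 0 < θ1) (hn : 0 < n)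
    (hw : θ1 * n ≤ w) (hs : s = 4 * n + 2 * (θ2 * U)) (hr : r ≤ 40 * s / w + 13)
    (h1 : 20 * (K * (160 / θ1 + 14)) * n ≤ U) (h2 : 1600 * K * θ2 ≤ θ1) (hθ2 : 0 ≤ θ2)
    (hU : 0 ≤ U) : K * (r + 1) * n ≤ U / 10 := by
  have hs0 : 0 ≤ s := by rw [hs]; positivity
  have hθn : 0 < θ1 * n := mul_pos hθ1 hn
  have a1 : 40 * s / w ≤ 40 * s / (θ1 * n) :=
    div_le_div_of_nonneg_left (by positivity) hθn hw
  have a2 : K * (r + 1) * n ≤ K * (40 * s / (θ1 * n) + 14) * n := by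
    apply mul_le_mul_of_nonneg_right _ hn.le
    apply mul_le_mul_of_nonneg_left _ hK.le
    linarith
  have a3 : K * (40 * s / (θ1 * n) + 14) * n =
      K * (160 / θ1 + 14) * n + 80 * K * θ2 / θ1 * U := by
    rw [hs]
    field_simp
    ring
  have a4 : 80 * K * θ2 / θ1 ≤ 1 / 20 := by
    rw [div_le_iff₀ hθ1]
    linarith
  have a5 : 80 * K * θ2 / θ1 * U ≤ 1 / 20 * U := mul_le_mul_of_nonneg_right a4 hU
  linarith

theorem BTM_second (hWPH : WPH_stmt)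
    {V : Type} [Fintype V] (G1 : SimpleGraph V) (A X : Finset V) (w r : ℕ) (Dm E : ℕ → V → V)
    (ε : ℝ) (he0 : 0 < ε) (he1 : ε ≤ 1 / 100) (hw : (w : ℝ) ≤ ε * Fintype.card V)
    (hA : (A.card : ℝ) ≤ (1 / 2 + ε) * Fintype.card V)
    (hB : (Aᶜ.card : ℝ) ≤ (1 / 2 + ε) * Fintype.card V)
    (hdg : ∀ x ∈ X, (1 / 4 + 10 * ε) * Fintype.card V ≤ dg (crossG G1 A) x)
    (hD : Desg (crossG G1 A) A X w r (ε * Fintype.card V) Dm)
    (hE1 : ∀ i < w, MatIn (innerG G1 A) (E i))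
    (hE2 : ∀ v v', (innerG G1 A).Adj v v' → ∃ i < w, E i v = v')
    (hE3 : ∀ i < w, ∀ j < w, i ≠ j → ∀ v, E i v ≠ v → E i v ≠ E j v)
    (hE4 : ∀ i < w, ∀ v, Dm i v ≠ v → E i v = v)
    (hE5 : ∀ i < w, ((Finset.univ.filter fun v => E i v ≠ v).card : ℝ) ≤ ε * Fintype.card V)
    (hE6 : ∀ i < w, |(((X ∩ A).filter fun x => E i x ≠ x).card : ℝ) -
      ((X \ A).filter fun x => E i x ≠ x).card| + 1 ≤ r)
    (hsz : |((X ∩ A).card : ℝ) - (X \ A).card| ≤ 1) :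
    ∃ M' : ℕ → V → V, (∀ i < w, MatIn G1 (M' i)) ∧ (∀ i < w, ∀ x ∈ X, M' i x ≠ x) ∧
      (∀ i < w, ∀ j < w, i ≠ j → ∀ v, M' i v ≠ v → M' i v ≠ M' j v) ∧
      ∀ v v', (remG G1 M' (Finset.range w)).Adj v v' → ¬ (v ∈ A ↔ v' ∈ A) := by
  obtain ⟨M', h1, h2, h3, h4⟩ := hWPH V (innerG G1 A) (crossG G1 A) A X w r Dm E ε he0 he1 hw
    (fun v v' h => h.2) (fun v v' h => h.2) hA hB hdg hD hE1 hE3 hE4 hE5 hE6 hsz
  refine ⟨M', ?_, h3, h4, ?_⟩
  · intro i hi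
    refine ⟨(h1 i hi).1, ?_⟩
    intro v hv
    have := (h1 i hi).2 v hv
    rw [SimpleGraph.sup_adj] at this
    rcases this with h | h
    · exact h.1
    · exact h.1
  · intro v v' h hvv
    obtain ⟨i, hi, hiv⟩ := hE2 v v' ⟨h.1, hvv⟩
    have hne : v ≠ v' := h.1.ne
    have h5 : E i v ≠ v := by rw [hiv]; exact hne.symm
    have h6 := h2 i hi v h5
    exact (h.2 i (Finset.mem_range.2 hi)).1 (by rw [h6, hiv])

theorem BTM_desg_mono {V : Type} [Fintype V] (C : SimpleGraph V) (A X : Finset V) (w r : ℕ)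
    (τ τ' : ℝ) (Dm : ℕ → V → V) (h : Desg C A X w r τ Dm) (hτ : τ ≤ τ') :
    Desg C A X w r τ' Dm :=
  ⟨h.mat, h.typ, h.cA, h.cB, h.dis, fun v => (h.ld v).trans hτ⟩

/-! ### The theorem -/

/-- The whole argument for given constants. -/
theorem BTM_main (hVIZ : VIZ_stmt) (hBAV : BAV_stmt) (hWB1 : WB1_stmt) (hKDG : KDG_stmt)
    (hWPH : WPH_stmt) (hKON : KON_stmt) (hCUP : CUP_stmt) (hCOV : COV_stmt)
    {V : Type} [Fintype V] (G : SimpleGraph V) (D : ℕ) (X A : Finset V)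
    (e ρ ε₁ θ1 θ0 θ K θ2 δ η n U : ℝ)
    (he0 : 0 < e) (he2 : e ≤ 1 / 2) (hε₁ : ε₁ = e / 100)
    (hθ1e : θ1 ≤ ε₁ / 40) (hθ1ρ : θ1 ≤ ρ / 40) (hθ1 : 0 < θ1)
    (hθ0 : θ ≤ θ0) (hθε : θ ≤ ε₁) (hK : 0 < K)
    (hθ2a : θ2 ≤ 1 / 20) (hθ2b : 1600 * K * θ2 ≤ θ1) (hθ2 : 0 < θ2) (hδ : 0 < δ)
    (hη : 0 < η) (hηδ : 16 * η ≤ δ) (hηε : 16 * η ≤ ε₁) (hηρ : 16 * η ≤ ρ)
    (hn : n = Fintype.card V) (hU : U = ep G X Xᶜ)
    (hn0 : 100 ≤ n) (hnδ : 12 ≤ δ * n) (hnρ : 8 ≤ ρ * n) (hnε : 2 ≤ ε₁ * n)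
    (hD : (1 / 2 + e) * n ≤ D) (hDn : D ≤ Fintype.card V)
    (hX : ∀ x ∈ X, dg G x = D) (hY : ∀ y, y ∉ X → (dg G y : ℝ) + ρ * n ≤ D)
    (hU1 : 15 * n ≤ U) (hU2 : 20 * (K * (160 / θ1 + 14)) * n ≤ U)
    -- the conclusion of PAB
    (hp1 : ∀ v, |(dgs G (X ∩ A) v : ℝ) - dgs G (X \ A) v| ≤ η * n ∧
      |(dgs G (Xᶜ ∩ A) v : ℝ) - dgs G (Xᶜ \ A) v| ≤ η * n)
    (hp2 : |((X ∩ A).card : ℝ) - (X \ A).card| ≤ 1)
    (hp3 : |((Xᶜ ∩ A).card : ℝ) - (Xᶜ \ A).card| ≤ 1)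
    (hp4 : |(ep G (X ∩ A) Xᶜ : ℝ) - ep G (X \ A) Xᶜ| ≤ n)
    (hp5 : |(ep G X (Xᶜ ∩ A) : ℝ) - ep G X (Xᶜ \ A)| ≤ n)
    (hp6 : |(ep G (X ∩ A) (Xᶜ ∩ A) : ℝ) + ep G (X \ A) (Xᶜ \ A) - ep G (X ∩ A) (Xᶜ \ A) -
      ep G (X \ A) (Xᶜ ∩ A)| ≤ (ep G X Xᶜ : ℝ) / 5)
    -- KPB for this graph
    (hkpb : ∀ (k : ℕ) (c : Sym2 V → ℕ), k ≤ Fintype.card V →
      PEC (innerG G A) k c → (A.card : ℝ) ≤ (1 / 2 + ε₁) * Fintype.card V →
      (Aᶜ.card : ℝ) ≤ (1 / 2 + ε₁) * Fintype.card V →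
      (∀ x ∈ X, (1 / 4 + 10 * ε₁) * Fintype.card V ≤ dg (crossG G A) x) →
      (∀ x ∈ X, (k : ℝ) ≤ dg (innerG G A) x + δ * Fintype.card V) →
      (∀ i < k, (mis (innerG G A) c X i : ℝ) ≤ δ * Fintype.card V) →
      ep G X Xᶜ ≤ 3 * ep (crossG G A) X Xᶜ →
      ∃ M : ℕ → V → V, KOut G A X k c M ∧
        (∀ v, (((Finset.range k).filter fun i => M i v ≠ ptn (innerG G A) c i v).card : ℝ) ≤
          θ * Fintype.card V) ∧
        (((∑ i ∈ Finset.range k, xch (ptn (innerG G A) c i) (M i) X : ℕ)) : ℝ) ≤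
          θ2 * ep G X Xᶜ)
    -- DSL
    (hdsl : ∀ (C : SimpleGraph V) (w r : ℕ), w ≤ Fintype.card V → 1 ≤ r →
      (∀ v w', C.Adj v w' → ¬ (v ∈ A ↔ w' ∈ A)) →
      K * (r + 1) * Fintype.card V ≤ ep C (X ∩ A) (Xᶜ \ A) →
      K * (r + 1) * Fintype.card V ≤ ep C (X \ A) (Xᶜ ∩ A) →
      ∃ Dm : ℕ → V → V, Desg C A X w r (θ1 / 10 * Fintype.card V) Dm)
    -- WDI
    (hwdi : ∀ (W C : SimpleGraph V) (w r : ℕ) (Dm : ℕ → V → V) (s : ℝ),
      θ1 * Fintype.card V ≤ w → w ≤ Fintype.card V →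
      (∀ v v', W.Adj v v' → (v ∈ A ↔ v' ∈ A)) → (∀ v, (dg W v : ℝ) ≤ θ0 * Fintype.card V) →
      Desg C A X w r (θ1 / 10 * Fintype.card V) Dm → 0 ≤ s →
      |(ep W (X ∩ A) (X ∩ A) : ℝ) - ep W (X \ A) (X \ A)| ≤ s → (ep W X Xᶜ : ℝ) ≤ s →
      ∃ E : ℕ → V → V, (∀ i < w, MatIn W (E i)) ∧ (∀ v v', W.Adj v v' → ∃ i < w, E i v = v') ∧
        (∀ i < w, ∀ j < w, i ≠ j → ∀ v, E i v ≠ v → E i v ≠ E j v) ∧
        (∀ i < w, ∀ v, Dm i v ≠ v → E i v = v) ∧
        (∀ i < w, ((Finset.univ.filter fun v => E i v ≠ v).card : ℝ) ≤ ε₁ * Fintype.card V) ∧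
        ∀ i < w, |(((X ∩ A).filter fun x => E i x ≠ x).card : ℝ) -
          ((X \ A).filter fun x => E i x ≠ x).card| ≤ 40 * s / w + 10) :
    EC G D := by
  rw [← hn] at hkpb hdsl hwdi
  rw [← hU] at hkpb hp6
  have hn1 : 0 < n := by linarith only [hn0]
  have hε₁0 : 0 < ε₁ := by rw [hε₁]; linarith only [he0]
  have hε₁1 : ε₁ ≤ 1 / 200 := by rw [hε₁]; linarith only [he2]
  have hall : ∀ v, dg G v ≤ D := by
    intro v
    by_cases hv : v ∈ X
    · exact (hX v hv).le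
    · have h1 := hY v hv
      have h2 : (dg G v : ℝ) ≤ D := by linarith only [h1, hnρ]
      exact_mod_cast h2
  have hspl : ∀ v, |(dg (innerG G A) v : ℝ) - dg (crossG G A) v| ≤ 2 * (η * n) :=
    fun v => BTM_spl G A X v _ (hp1 v).1 (hp1 v).2
  have hdeg : ∀ v, (dg (innerG G A) v : ℝ) + dg (crossG G A) v = dg G v := by
    intro v
    exact_mod_cast BTM_deg G A v
  have hηn : 16 * (η * n) ≤ ε₁ * n := by
    have := mul_le_mul_of_nonneg_right hηε hn1.le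
    linarith only [this]
  have hηn2 : 16 * (η * n) ≤ ρ * n := by
    have := mul_le_mul_of_nonneg_right hηρ hn1.le
    linarith only [this]
  have hηn0 : 0 ≤ η * n := by positivity
  have hε₁n : ε₁ * n ≤ n / 200 := by
    have := mul_le_mul_of_nonneg_right hε₁1 hn1.le
    linarith only [this]
  have hDn' : (D : ℝ) ≤ n := by rw [hn]; exact_mod_cast hDn
  have hD0 : (0 : ℝ) ≤ D := Nat.cast_nonneg D
  have hD' : n / 2 + 100 * (ε₁ * n) ≤ D := by
    have h4 : e = 100 * ε₁ := by rw [hε₁]; ring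
    rw [h4] at hD
    have h5 : (1 / 2 + 100 * ε₁) * n = n / 2 + 100 * (ε₁ * n) := by ring
    rw [h5] at hD
    exact hD
  -- the number k
  obtain ⟨k, hk⟩ : ∃ k : ℕ, k = ⌊(D : ℝ) / 2 + η * n⌋₊ + 1 := ⟨_, rfl⟩
  have hk1 : (k : ℝ) ≤ (D : ℝ) / 2 + η * n + 1 := by
    have h0 : (0 : ℝ) ≤ (D : ℝ) / 2 + η * n := by linarith only [hD0, hηn0]
    have := Nat.floor_le h0
    rw [hk]
    push_cast
    linarith only [this]
  have hk2 : (D : ℝ) / 2 + η * n < k := by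
    rw [hk]
    push_cast
    exact Nat.lt_floor_add_one _
  have hkn : k ≤ Fintype.card V := by
    have h1 : (k : ℝ) ≤ n := by linarith only [hk1, hDn', hηn, hε₁n, hn0]
    rw [hn] at h1
    exact_mod_cast h1
  -- sizes
  obtain ⟨hA, hB⟩ := BTM_sizes A X hp2 hp3
  rw [← hn] at hA hB
  have hsz : (1 / 2 + ε₁) * n = n / 2 + ε₁ * n := by ring
  have hA' : (A.card : ℝ) ≤ (1 / 2 + ε₁) * n := by rw [hsz]; linarith only [hA, hnε]
  have hB' : (Aᶜ.card : ℝ) ≤ (1 / 2 + ε₁) * n := by rw [hsz]; linarith only [hB, hnε]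
  obtain ⟨hf1, hf2, hf3⟩ := BTM_four G A X n hp4 hp5 (by rw [← hU]; exact hp6)
    (by rw [← hU]; exact hU1)
  rw [← hU] at hf1 hf2 hf3
  have hf3' : ep G X Xᶜ ≤ 3 * ep (crossG G A) X Xᶜ := by
    rw [hU] at hf3
    exact_mod_cast hf3
  -- the first colouring
  obtain ⟨c, hc1, hc2, hc3⟩ := BTM_first hVIZ hBAV G A X D k η δ hη.le hηδ (by rw [← hn]; exact hnδ)
    (by rw [← hn]; linarith only [hD', hnε]) (by rw [← hn]; linarith only [hn0]) hX hall
    (by rw [← hn]; exact hspl) (by rw [← hn]; exact hk1) (by rw [← hn]; exact hk2)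
  rw [← hn] at hc2 hc3
  have hcr : ∀ x ∈ X, n / 4 + 49 * (ε₁ * n) ≤ dg (crossG G A) x := by
    intro x hx
    have h1 := abs_le.1 (hspl x)
    have h2 := hdeg x
    have h3 : (dg G x : ℝ) = D := by exact_mod_cast hX x hx
    linarith only [h1.1, h1.2, h2, h3, hD', hηn, hηn0, hnε]
  have h14 : (1 / 4 + 10 * ε₁) * n = n / 4 + 10 * (ε₁ * n) := by ring
  obtain ⟨M, hM1, hM2, hM3⟩ := hkpb k c hkn hc1 hA' hB' (by
    intro x hx
    rw [h14]
    have := hcr x hx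
    linarith only [this, hnε]) hc3 hc2 hf3'
  -- the balance
  obtain ⟨hw1, hw2, hw3⟩ := hWB1 V G A X D k c M hc1 hM1 hX hkn hDn hp2
    (by rw [← hn]; exact hp4) (by rw [← hn]; exact hp5)
  obtain ⟨hd1, hd2, hd3⟩ := hKDG V G A X k c M hc1 hM1
  obtain ⟨xc, hxc⟩ : ∃ xc : ℕ, xc = ∑ i ∈ Finset.range k, xch (ptn (innerG G A) c i) (M i) X :=
    ⟨_, rfl⟩
  rw [← hxc] at hM3 hw1 hw2 hw3
  rw [← hn] at hw1
  obtain ⟨G1, hG1⟩ : ∃ G1, G1 = remG G M (Finset.range k) := ⟨_, rfl⟩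
  rw [← hG1] at hw1 hw2 hw3 hd1 hd2 hd3
  -- the second phase: numbers
  obtain ⟨s, hs⟩ : ∃ s : ℝ, s = 4 * n + 2 * (θ2 * U) := ⟨_, rfl⟩
  obtain ⟨w, hw⟩ : ∃ w : ℕ, w = ⌈θ1 * n⌉₊ := ⟨_, rfl⟩
  have hU0 : 0 ≤ U := by rw [hU]; exact Nat.cast_nonneg _
  have hθ2U0 : 0 ≤ θ2 * U := mul_nonneg hθ2.le hU0
  have hs0 : 0 ≤ s := by rw [hs]; linarith only [hn1, hθ2U0]
  have hθ1n0 : 0 < θ1 * n := mul_pos hθ1 hn1
  have hwa : θ1 * n ≤ w := by rw [hw]; exact Nat.le_ceil _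
  have hwb : (w : ℝ) < θ1 * n + 1 := by rw [hw]; exact Nat.ceil_lt_add_one hθ1n0.le
  have hθ1n : 40 * (θ1 * n) ≤ ε₁ * n := by
    have := mul_le_mul_of_nonneg_right hθ1e hn1.le
    linarith only [this]
  have hθ1n2 : 40 * (θ1 * n) ≤ ρ * n := by
    have := mul_le_mul_of_nonneg_right hθ1ρ hn1.le
    linarith only [this]
  have hwε : (w : ℝ) ≤ ε₁ * n := by linarith only [hwb, hθ1n, hnε]
  have hwn : w ≤ Fintype.card V := by
    have h1 : (w : ℝ) ≤ n := by linarith only [hwε, hε₁n, hn1]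
    rw [hn] at h1
    exact_mod_cast h1
  have hw0 : (0 : ℝ) < w := lt_of_lt_of_le hθ1n0 hwa
  obtain ⟨r, hr⟩ : ∃ r : ℕ, r = ⌈40 * s / w⌉₊ + 12 := ⟨_, rfl⟩
  have hr0 : 0 ≤ 40 * s / w := by positivity
  have hr1 : 40 * s / w + 12 ≤ (r : ℝ) := by
    have := Nat.le_ceil (40 * s / w)
    rw [hr]
    push_cast
    linarith only [this]
  have hr2 : (r : ℝ) ≤ 40 * s / w + 13 := by
    have := Nat.ceil_lt_add_one hr0
    rw [hr]
    push_cast
    linarith only [this]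
  have hr3 : 1 ≤ r := by rw [hr]; exact le_add_left (by norm_num)
  have hnum : K * (r + 1) * n ≤ U / 10 :=
    BTM_num1 K θ1 θ2 n U s w r hK hθ1 hn1 hwa hs hr2 hU2 hθ2b hθ2.le hU0
  have hθ2U : θ2 * U ≤ U / 20 := by
    have := mul_le_mul_of_nonneg_right hθ2a hU0
    linarith only [this]
  have hxcU : (xc : ℝ) ≤ θ2 * U := hM3
  have hsA : ((X ∩ A) ⊆ X) := Finset.inter_subset_left
  have hsB : ((X \ A) ⊆ X) := Finset.sdiff_subset
  have hsC : ((Xᶜ ∩ A) ⊆ Xᶜ) := Finset.inter_subset_left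
  have hsD : ((Xᶜ \ A) ⊆ Xᶜ) := Finset.sdiff_subset
  have hq1 : K * (r + 1) * n ≤ ep (crossG G1 A) (X ∩ A) (Xᶜ \ A) := by
    have h1 := hw3 _ hsA _ hsD
    have h2 : (ep (crossG G A) (X ∩ A) (Xᶜ \ A) : ℝ) ≤
        ep (crossG G1 A) (X ∩ A) (Xᶜ \ A) + xc := by exact_mod_cast h1
    linarith only [h2, hnum, hf1, hxcU, hθ2U, hU0]
  have hq2 : K * (r + 1) * n ≤ ep (crossG G1 A) (X \ A) (Xᶜ ∩ A) := by
    have h1 := hw3 _ hsB _ hsC
    have h2 : (ep (crossG G A) (X \ A) (Xᶜ ∩ A) : ℝ) ≤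
        ep (crossG G1 A) (X \ A) (Xᶜ ∩ A) + xc := by exact_mod_cast h1
    linarith only [h2, hnum, hf2, hxcU, hθ2U, hU0]
  obtain ⟨Dm, hDm⟩ := hdsl (crossG G1 A) w r hwn hr3 (fun v w' h => h.2) hq1 hq2
  obtain ⟨E, hE1, hE2, hE3, hE4, hE5, hE6⟩ := hwdi (innerG G1 A) (crossG G1 A) w r Dm s hwa hwn
    (fun v v' h => h.2) (by
      intro v
      have h1 : (dg (innerG G1 A) v : ℝ) ≤
          (((Finset.range k).filter fun i => M i v ≠ ptn (innerG G A) c i v).card : ℝ) := by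
        exact_mod_cast hd1 v
      have h2 := hM2 v
      have h3 := mul_le_mul_of_nonneg_right hθ0 hn1.le
      linarith only [h1, h2, h3]) hDm hs0 (by
      rw [hs]
      linarith only [hw1, hxcU]) (by
      have h1 : (ep (innerG G1 A) X Xᶜ : ℝ) ≤ xc := by exact_mod_cast hw2
      rw [hs]
      linarith only [h1, hxcU, hθ2U0, hn1])
  obtain ⟨M', hM'1, hM'2, hM'3, hM'4⟩ := BTM_second hWPH G1 A X w r Dm E ε₁ hε₁0
    (by linarith only [hε₁1])
    (by rw [← hn]; exact hwε) (by rw [← hn]; exact hA') (by rw [← hn]; exact hB')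
    (by
      intro x hx
      rw [← hn, h14]
      have h1 := hcr x hx
      have h2 : (dg (crossG G A) x : ℝ) ≤ dg (crossG G1 A) x +
          (((Finset.range k).filter fun i => M i x ≠ ptn (innerG G A) c i x).card : ℝ) := by
        exact_mod_cast hd2 x
      have h3 := hM2 x
      have h4 := mul_le_mul_of_nonneg_right hθε hn1.le
      linarith only [h1, h2, h3, h4, hnε])
    (BTM_desg_mono _ _ _ _ _ _ _ _ hDm (by rw [← hn]; linarith only [hθ1n, hnε, hθ1n0])) hE1 hE2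
    hE3 hE4 (by rw [← hn]; exact hE5) (by
      intro i hi
      have := hE6 i hi
      linarith only [this, hr1]) hp2
  -- the last step
  have hkw : (k : ℝ) + w ≤ D - (D - ρ * n) / 2 - η * n := by
    linarith only [hk1, hwb, hηn2, hθ1n2, hnρ]
  have hDρ : ρ * n ≤ D := by
    by_contra hcon
    push Not at hcon
    -- then X is everything and U = 0
    have hXu : ∀ y, y ∈ X := by
      intro y
      by_contra hy
      have h1 := hY y hy
      have h2 : (0 : ℝ) ≤ dg G y := Nat.cast_nonneg _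
      linarith only [h1, h2, hcon]
    have hXc : Xᶜ = ∅ := by
      ext y
      simp [hXu y]
    have hU00 : U = 0 := by
      rw [hU, hXc]
      unfold ep dgs
      simp
    linarith only [hU00, hU1, hn1]
  have hkwD : k + w ≤ D := by
    have h1 : (k : ℝ) + w ≤ D := by linarith only [hkw, hDρ, hηn0]
    exact_mod_cast h1
  apply BTM_last hKON hCUP hCOV G A D k w M M' (fun i hi v => (hM1.mat i hi).1 v)
    (fun i hi v => (hM'1 i hi).1 v) hkwD
  · intro v v' h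
    rw [← hG1] at h
    exact hM'4 v v' h
  · intro v
    rw [← hG1]
    by_cases hv : v ∈ X
    · have h1 := BTM_rem G1 M' w v hM'1 (fun i hi => hM'2 i hi v hv) hM'3
      have h2 := hd3 v hv
      have h3 := hX v hv
      clear * - h1 h2 h3
      omega
    · have h1 : dg (remG G1 M' (Finset.range w)) v ≤ dg (crossG G A) v := by
        apply BTM_dg_mono
        intro u hu
        refine ⟨?_, hM'4 v u hu⟩
        have h2 := hu.1
        rw [hG1] at h2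
        exact h2.1
      have h2 := abs_le.1 (hspl v)
      have h3 := hdeg v
      have h4 := hY v hv
      have h5 : (dg (remG G1 M' (Finset.range w)) v : ℝ) ≤ dg (crossG G A) v := by
        exact_mod_cast h1
      have h6 : (dg (remG G1 M' (Finset.range w)) v : ℝ) + (k + w) ≤ D := by
        linarith only [h2.1, h2.2, h3, h4, h5, hkw]
      exact_mod_cast h6

theorem BTM (hVIZ : VIZ_stmt) (hBAV : BAV_stmt) (hKPB : KPB_stmt) (hPAB : PAB_stmt)
    (hWB1 : WB1_stmt) (hKDG : KDG_stmt) (hDSL : DSL_stmt) (hWDI : WDI_stmt) (hWPH : WPH_stmt)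
    (hKON : KON_stmt) (hCUP : CUP_stmt) (hCOV : COV_stmt) : BTM_stmt := by
  intro ε ρ hε hρ
  obtain ⟨e, he0, heε, he2⟩ : ∃ e : ℝ, 0 < e ∧ e ≤ ε ∧ e ≤ 1 / 2 :=
    ⟨min ε (1 / 2), by positivity, min_le_left _ _, min_le_right _ _⟩
  obtain ⟨ε₁, hε₁⟩ : ∃ ε₁ : ℝ, ε₁ = e / 100 := ⟨_, rfl⟩
  have hε₁0 : 0 < ε₁ := by rw [hε₁]; linarith
  have hε₁1 : ε₁ ≤ 1 / 200 := by rw [hε₁]; linarith
  obtain ⟨θ1, hθ1, hθ1e, hθ1ρ⟩ : ∃ θ1 : ℝ, 0 < θ1 ∧ θ1 ≤ ε₁ / 40 ∧ θ1 ≤ ρ / 40 := by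
    refine ⟨min ε₁ ρ / 40, by positivity, ?_, ?_⟩
    · linarith [min_le_left ε₁ ρ]
    · linarith [min_le_right ε₁ ρ]
  obtain ⟨θ0, N1, hθ00, hwdi⟩ := hWDI θ1 ε₁ hθ1 hε₁0
  obtain ⟨θ, hθ, hθ0, hθε⟩ : ∃ θ : ℝ, 0 < θ ∧ θ ≤ θ0 ∧ θ ≤ ε₁ :=
    ⟨min θ0 ε₁, by positivity, min_le_left _ _, min_le_right _ _⟩
  obtain ⟨K, N2, hK, hdsl⟩ := hDSL (θ1 / 10) (by positivity)
  obtain ⟨θ2, hθ2, hθ2a, hθ2b⟩ : ∃ θ2 : ℝ, 0 < θ2 ∧ θ2 ≤ 1 / 20 ∧ 1600 * K * θ2 ≤ θ1 := by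
    refine ⟨min (1 / 20) (θ1 / (1600 * K)), by positivity, min_le_left _ _, ?_⟩
    have h1 := min_le_right (1 / 20) (θ1 / (1600 * K))
    calc 1600 * K * min (1 / 20) (θ1 / (1600 * K)) ≤ 1600 * K * (θ1 / (1600 * K)) :=
          mul_le_mul_of_nonneg_left h1 (by positivity)
      _ = θ1 := by field_simp
  obtain ⟨δ, C0, N3, hδ, hC0, hkpb⟩ := hKPB ε₁ θ θ2 hε₁0 (by linarith) hθ hθε hθ2
  obtain ⟨η, hη, hηδ, hηε, hηρ⟩ : ∃ η : ℝ, 0 < η ∧ 16 * η ≤ δ ∧ 16 * η ≤ ε₁ ∧ 16 * η ≤ ρ := by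
    refine ⟨min (min δ ε₁) ρ / 16, by positivity, ?_, ?_, ?_⟩
    · linarith [min_le_left (min δ ε₁) ρ, min_le_left δ ε₁]
    · linarith [min_le_left (min δ ε₁) ρ, min_le_right δ ε₁]
    · linarith [min_le_right (min δ ε₁) ρ]
  obtain ⟨C1, N4, hC1, hpab⟩ := hPAB η hη
  refine ⟨C0 + C1 + 15 + 20 * (K * (160 / θ1 + 14)),
    N1 + N2 + N3 + N4 + ⌈12 / δ + 8 / ρ + 2 / ε₁ + 100⌉₊, by positivity, ?_⟩
  intro V _ G D X hN hD hX hY hU
  obtain ⟨n, hn⟩ : ∃ n : ℝ, n = Fintype.card V := ⟨_, rfl⟩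
  have hn5 : 12 / δ + 8 / ρ + 2 / ε₁ + 100 ≤ n := by
    have h1 : ⌈12 / δ + 8 / ρ + 2 / ε₁ + 100⌉₊ ≤ Fintype.card V := by omega
    rw [hn]
    exact Nat.ceil_le.1 h1
  have hd1 : 0 < 12 / δ := by positivity
  have hd2 : 0 < 8 / ρ := by positivity
  have hd3 : 0 < 2 / ε₁ := by positivity
  have hn0 : 100 ≤ n := by linarith
  have hnδ : 12 ≤ δ * n := by
    have : 12 / δ ≤ n := by linarith
    rw [div_le_iff₀ hδ] at this
    linarith
  have hnρ : 8 ≤ ρ * n := by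
    have : 8 / ρ ≤ n := by linarith
    rw [div_le_iff₀ hρ] at this
    linarith
  have hnε : 2 ≤ ε₁ * n := by
    have : 2 / ε₁ ≤ n := by linarith
    rw [div_le_iff₀ hε₁0] at this
    linarith
  rw [← hn] at hD hU
  have hn1 : 0 < n := by linarith
  have hKn : 0 < 20 * (K * (160 / θ1 + 14)) * n := by positivity
  have hC0n : 0 < C0 * n := by positivity
  have hC1n : 0 < C1 * n := by positivity
  have hUU : C0 * n + C1 * n + 15 * n + 20 * (K * (160 / θ1 + 14)) * n ≤ ep G X Xᶜ := by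
    calc C0 * n + C1 * n + 15 * n + 20 * (K * (160 / θ1 + 14)) * n =
        (C0 + C1 + 15 + 20 * (K * (160 / θ1 + 14))) * n := by ring
      _ ≤ _ := hU
  obtain ⟨A, hp1, hp2, hp3, hp4, hp5, hp6⟩ := hpab V G X (by omega) (by rw [← hn]; linarith)
  have hXne : X.Nonempty := by
    rw [Finset.nonempty_iff_ne_empty]
    intro h
    rw [h] at hUU
    have : ep G ∅ ∅ᶜ = 0 := by unfold ep; simp
    rw [this] at hUU
    push_cast at hUU
    linarith
  have hDn : D ≤ Fintype.card V := by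
    obtain ⟨x, hx⟩ := hXne
    rw [← hX x hx]
    exact BTM_dg_le G x
  refine BTM_main hVIZ hBAV hWB1 hKDG hWPH hKON hCUP hCOV G D X A e ρ ε₁ θ1 θ0 θ K θ2 δ η n
    (ep G X Xᶜ : ℝ) he0 he2 hε₁ hθ1e hθ1ρ hθ1 hθ0 hθε hK hθ2a hθ2b hθ2 hδ hη hηδ hηε hηρ hn rfl
    hn0 hnδ hnρ hnε ?_ hDn hX ?_ (by linarith) (by linarith) ?_ hp2 hp3 ?_ ?_ hp6 ?_ ?_ ?_
  · have := mul_le_mul_of_nonneg_right heε hn1.le
    linarith
  · intro y hy
    rw [hn]
    exact hY y hy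
  · rw [hn]; exact hp1
  · rw [hn]; exact hp4
  · rw [hn]; exact hp5
  · intro k c h1 h2 h3 h4 h5 h6 h7 h8
    exact hkpb V G A X k c (by omega) h1 h2 h3 h4 h5 h6 h7 (by rw [← hn]; linarith) h8
  · intro C w r h1 h2 h3 h4 h5
    exact hdsl V C A X w r (by omega) h1 h2 h3 h4 h5
  · intro W C w r Dm s h1 h2 h3 h4 h5 h6 h7 h8
    exact hwdi V W C A X w r Dm s (by omega) h1 h2 h3 h4 h5 h6 h7 h8

end

end Pool.Agent.OF
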